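import Mathlib

namespace Pool.Agent.Results.MP_728180_al.NeverAboveContiguous

open Finset

universe u v

/-- The power `m ^ i` of the maximal ideal of the local algebra `A`, as a `K`-subspace. -/
def powM (K : Type u) (A : Type v) [Field K] [CommRing A] [Algebra K A] [IsLocalRing A]
    (i : ℕ) : Submodule K A :=
  ((IsLocalRing.maximalIdeal A) ^ i).restrictScalars K

/-- The Hilbert function `h_i = dim_K (m ^ i / m ^ (i + 1))` of the local algebra `A`. -/
noncomputable def hilb (K : Type u) (A : Type v) [Field K] [CommRing A] [Algebra K A]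
    [IsLocalRing A] (i : ℕ) : ℕ :=
  Module.finrank K (↥(powM K A i) ⧸ (powM K A (i + 1)).submoduleOf (powM K A i))

/-- The multiset `P` is the multiset of the sizes of the Jordan blocks of the nilpotent
endomorphism `f`: there is a basis of `V` which is a disjoint union of strings
`b (i, 0), b (i, 1), ..., b (i, n i - 1)` of positive lengths `n i`, where `f` sends each element
of a string to the next one and the last one to `0`, and `P` is the multiset of the `n i`. -/
def IsJordanType {K : Type u} {V : Type v} [Field K] [AddCommGroup V] [Module K V]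
    (f : V →ₗ[K] V) (P : Multiset ℕ) : Prop :=
  ∃ (r : ℕ) (n : Fin r → ℕ) (b : Module.Basis (Σ i : Fin r, Fin (n i)) K V),
    (∀ i, 0 < n i) ∧ P = (Finset.univ : Finset (Fin r)).val.map n ∧
      ∀ (i : Fin r) (j : Fin (n i)),
        f (b ⟨i, j⟩) = if h : (j : ℕ) + 1 < n i then b ⟨i, ⟨(j : ℕ) + 1, h⟩⟩ else 0

/-- The maximal runs of consecutive columns in the rows of the bar graph of `H`, where the
heights `H i` are at most `N` and vanish for `i ≥ N`: the triples `(t, a, b)` with `t ≥ 1`,
`a ≤ b`, such that the columns `a, ..., b` all have height at least `t`, and neither the column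
`a - 1` (if `a > 0`) nor the column `b + 1` has height at least `t`. -/
def runs (H : ℕ → ℕ) (N : ℕ) : Finset (ℕ × ℕ × ℕ) :=
  (range (N + 1) ×ˢ range (N + 1) ×ˢ range (N + 1)).filter
    (fun x => 1 ≤ x.1 ∧ x.2.1 ≤ x.2.2 ∧ (∀ i ∈ Icc x.2.1 x.2.2, x.1 ≤ H i) ∧
      (x.2.1 = 0 ∨ H (x.2.1 - 1) < x.1) ∧ H (x.2.2 + 1) < x.1)

/-- The contiguous partition `P_c(H)`: the multiset of the lengths of the maximal runs. -/
def contiguous (H : ℕ → ℕ) (N : ℕ) : Multiset ℕ :=
  (runs H N).val.map (fun x => x.2.2 + 1 - x.2.1)

/-- The sum of the `k` largest parts of the multiset `P` (of all parts if there are fewer). -/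
def topSum (k : ℕ) (P : Multiset ℕ) : ℕ := ((P.sort (· ≥ ·)).take k).sum

/-- `P` strictly dominates `Q`. -/
def StrictlyDominates (P Q : Multiset ℕ) : Prop :=
  (∀ k, topSum k Q ≤ topSum k P) ∧ P ≠ Q

/-! ### Sums of largest parts -/

lemma sublist_sum_le : ∀ (L : List ℕ), L.Pairwise (· ≥ ·) → ∀ (k : ℕ) (l : List ℕ),
    l.Sublist L → l.length ≤ k → l.sum ≤ (L.take k).sum := by
  intro L
  induction L with
  | nil =>
    intro _ k l hl _
    have : l = [] := List.sublist_nil.mp hl
    subst this
    simp
  | cons a L ih =>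
    intro hs k l hl hk
    rw [List.pairwise_cons] at hs
    rcases k with _ | k
    · have : l = [] := List.length_eq_zero_iff.mp (by omega)
      subst this
      simp
    · rw [List.take_succ_cons, List.sum_cons]
      cases hl with
      | cons _ hl =>
        rcases l with _ | ⟨c, l⟩
        · simp
        · have hc : c ∈ L := hl.subset (by simp)
          have h1 : c ≤ a := hs.1 c hc
          have h2 : l.Sublist L := (List.sublist_cons_self c l).trans hl
          have h3 := ih hs.2 k l h2 (by simpa using hk)
          rw [List.sum_cons]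
          omega
      | cons_cons _ hl =>
        rename_i l
        have h3 := ih hs.2 k l hl (by simpa using hk)
        rw [List.sum_cons]
        omega

lemma sum_le_topSum (k : ℕ) (P R : Multiset ℕ) (h : R ≤ P) (hk : Multiset.card R ≤ k) :
    R.sum ≤ topSum k P := by
  unfold topSum
  have hs : (P.sort (· ≥ ·)).Pairwise (· ≥ ·) := Multiset.pairwise_sort P (· ≥ ·)
  have h1 : (R.sort (· ≥ ·)).Sublist (P.sort (· ≥ ·)) := by
    apply List.sublist_of_subperm_of_pairwise (r := (· ≥ ·)) ?_ (Multiset.pairwise_sort R (· ≥ ·)) hs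
    rw [← Multiset.coe_le]
    simpa using h
  have h2 := sublist_sum_le _ hs k _ h1 (by simpa using hk)
  have h3 : (R.sort (· ≥ ·)).sum = R.sum := by
    rw [← Multiset.sum_coe, Multiset.sort_eq]
  omega

lemma eq_of_take_sum : ∀ (L M : List ℕ), (∀ x ∈ L, 0 < x) → (∀ x ∈ M, 0 < x) →
    (∀ k, (L.take k).sum = (M.take k).sum) → L = M := by
  intro L
  induction L with
  | nil =>
    intro M _ hM h
    rcases M with _ | ⟨a, M⟩
    · rfl
    · have h1 := h 1
      have h2 := hM a (by simp)
      simp at h1
      omega
  | cons a L ih =>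
    intro M hL hM h
    rcases M with _ | ⟨c, M⟩
    · have h1 := h 1
      have h2 := hL a (by simp)
      simp at h1
      omega
    · have h1 := h 1
      simp at h1
      subst h1
      rw [ih M (fun x hx => hL x (by simp [hx])) (fun x hx => hM x (by simp [hx]))
        (fun k => by simpa using h (k + 1))]

lemma eq_of_topSum (P Q : Multiset ℕ) (hP : ∀ x ∈ P, 0 < x) (hQ : ∀ x ∈ Q, 0 < x)
    (h : ∀ k, topSum k P = topSum k Q) : P = Q := by
  have h1 := eq_of_take_sum (P.sort (· ≥ ·)) (Q.sort (· ≥ ·))
    (fun x hx => hP x (by simpa using hx)) (fun x hx => hQ x (by simpa using hx)) h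
  rw [← Multiset.sort_eq P (· ≥ ·), h1, Multiset.sort_eq]

/-- The largest `k` parts of the multiset of the values of `n` are the values at a set of at most
`k` indices. -/
lemma exists_topSum {r : ℕ} (n : Fin r → ℕ) (k : ℕ) :
    ∃ S : Finset (Fin r), S.card ≤ k ∧
      topSum k ((Finset.univ : Finset (Fin r)).val.map n) = ∑ i ∈ S, n i := by
  classical
  set I : List (Fin r) := List.insertionSort (fun i j => n i ≥ n j) (List.finRange r) with hI
  have : Std.Total (fun i j : Fin r => n i ≥ n j) := ⟨fun i j => le_total _ _⟩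
  have : IsTrans (Fin r) (fun i j : Fin r => n i ≥ n j) := ⟨fun i j k h1 h2 => ge_trans h1 h2⟩
  have hperm : I.Perm (List.finRange r) := List.perm_insertionSort _ _
  have hpw : I.Pairwise (fun i j => n i ≥ n j) := List.pairwise_insertionSort _ _
  have hnd : I.Nodup := hperm.nodup_iff.mpr (List.nodup_finRange r)
  have huniv : ((Finset.univ : Finset (Fin r)).val.map n) = ((I.map n : List ℕ) : Multiset ℕ) := by
    rw [← Multiset.map_coe]
    congr 1
    rw [Multiset.coe_eq_coe.mpr hperm]
    rfl
  have hsort : ((Finset.univ : Finset (Fin r)).val.map n).sort (· ≥ ·) = I.map n := by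
    apply List.Perm.eq_of_pairwise (le := (· ≥ ·))
    · intro a b _ _ h1 h2
      exact le_antisymm h2 h1
    · exact Multiset.pairwise_sort _ _
    · rw [List.pairwise_map]
      exact hpw
    · rw [← Multiset.coe_eq_coe, Multiset.sort_eq, huniv]
  refine ⟨(I.take k).toFinset, ?_, ?_⟩
  · exact (List.toFinset_card_le _).trans (by simp)
  · unfold topSum
    rw [hsort, ← List.map_take, List.sum_toFinset _ (hnd.sublist (List.take_sublist k I))]

/-! ### Dimension counts -/

section Dim

variable {K : Type u} {V : Type v} [Field K] [AddCommGroup V] [Module K V] [FiniteDimensional K V]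

lemma finrank_map_add (f : V →ₗ[K] V) (W : Submodule K V) :
    Module.finrank K (W.map f) + Module.finrank K (LinearMap.ker f ⊓ W : Submodule K V)
      = Module.finrank K W := by
  have h := LinearMap.finrank_range_add_finrank_ker (f.domRestrict W)
  rw [← h]
  congr 1
  · rw [LinearMap.range_domRestrict]
  · rw [LinearMap.ker_domRestrict]
    have e : (Submodule.comap W.subtype (LinearMap.ker f)).map W.subtype
        = (LinearMap.ker f ⊓ W : Submodule K V) := by
      rw [Submodule.map_comap_subtype, inf_comm]
    rw [← e, Submodule.finrank_map_subtype_eq]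

/-- For every `k` there is an `f`-stable subspace whose dimension is the sum of the `k` largest
blocks and which needs at most `k` generators, i.e. `dim W ≤ dim f(W) + k`. -/
lemma exists_subspace (f : V →ₗ[K] V) (P : Multiset ℕ) (hP : IsJordanType f P) (k : ℕ) :
    ∃ W : Submodule K V, W.map f ≤ W ∧ Module.finrank K W = topSum k P ∧
      Module.finrank K W ≤ Module.finrank K (W.map f) + k := by
  classical
  obtain ⟨r, n, b, hpos, hPn, hb⟩ := hP
  obtain ⟨S, hSk, hS⟩ := exists_topSum n k
  set T : Finset (Σ i : Fin r, Fin (n i)) := S.sigma (fun _ => Finset.univ) with hT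
  set T' : Finset (Σ i : Fin r, Fin (n i)) := T.filter (fun x => 1 ≤ (x.2 : ℕ)) with hT'
  have hfin : ∀ U : Finset (Σ i : Fin r, Fin (n i)),
      Module.finrank K (Submodule.span K (b '' (U : Set (Σ i : Fin r, Fin (n i))))) = U.card := by
    intro U
    have h1 : LinearIndepOn K id ((U.image b : Finset V) : Set V) := by
      rw [Finset.coe_image]
      exact (b.linearIndependent.linearIndepOn_id.mono (Set.image_subset_range _ _))
    have h2 := finrank_span_finset_eq_card h1
    rw [Finset.coe_image] at h2
    rw [h2, Finset.card_image_of_injective _ b.injective]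
  have hTcard : T.card = ∑ i ∈ S, n i := by
    rw [hT, Finset.card_sigma]
    simp
  have hT'card : T.card ≤ T'.card + k := by
    have h1 : T.card = T'.card + (T.filter (fun x => ¬ 1 ≤ (x.2 : ℕ))).card := by
      rw [hT', Finset.card_filter_add_card_filter_not]
    have h2 : (T.filter (fun x => ¬ 1 ≤ (x.2 : ℕ))).card ≤ S.card := by
      apply Finset.card_le_card_of_injOn (fun x => x.1)
      · intro x hx
        have hx' := (Finset.mem_filter.mp hx).1
        exact (Finset.mem_sigma.mp hx').1
      · rintro ⟨i, j⟩ hx ⟨i', j'⟩ hy hxy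
        have hx' := (Finset.mem_filter.mp hx).2
        have hy' := (Finset.mem_filter.mp hy).2
        simp only at hxy hx' hy'
        subst hxy
        have : j = j' := Fin.ext (by omega)
        rw [this]
    omega
  refine ⟨Submodule.span K (b '' (T : Set (Σ i : Fin r, Fin (n i)))), ?_, ?_, ?_⟩
  · rw [Submodule.map_span, Submodule.span_le]
    rintro _ ⟨_, ⟨⟨i, j⟩, hx, rfl⟩, rfl⟩
    rw [hb i j]
    split_ifs with h
    · apply Submodule.subset_span
      refine ⟨⟨i, ⟨(j : ℕ) + 1, h⟩⟩, ?_, rfl⟩
      have hx' := Finset.mem_sigma.mp (Finset.mem_coe.mp hx)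
      exact Finset.mem_coe.mpr (Finset.mem_sigma.mpr ⟨hx'.1, Finset.mem_univ _⟩)
    · exact Submodule.zero_mem _
  · rw [hfin, hTcard, hPn, hS]
  · rw [hfin]
    have h1 : Submodule.span K (b '' (T' : Set (Σ i : Fin r, Fin (n i))))
        ≤ (Submodule.span K (b '' (T : Set (Σ i : Fin r, Fin (n i))))).map f := by
      rw [Submodule.span_le]
      rintro _ ⟨⟨i, j⟩, hx, rfl⟩
      have hx1 := Finset.mem_filter.mp (Finset.mem_coe.mp hx)
      have hx2 := Finset.mem_sigma.mp hx1.1
      have hj : 1 ≤ (j : ℕ) := hx1.2
      have hlt : (j : ℕ) - 1 < n i := by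
        have := j.2
        omega
      refine ⟨b ⟨i, ⟨(j : ℕ) - 1, hlt⟩⟩, ?_, ?_⟩
      · apply Submodule.subset_span
        exact ⟨⟨i, ⟨(j : ℕ) - 1, hlt⟩⟩,
          Finset.mem_coe.mpr (Finset.mem_sigma.mpr ⟨hx2.1, Finset.mem_univ _⟩), rfl⟩
      · rw [hb i ⟨(j : ℕ) - 1, hlt⟩]
        have h3 : (((⟨(j : ℕ) - 1, hlt⟩ : Fin (n i)) : ℕ)) + 1 < n i := by
          have := j.2
          simp only
          omega
        rw [dif_pos h3]
        congr 2
        exact Fin.ext (by simp only; omega)
    have h2 := Submodule.finrank_mono h1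
    rw [hfin] at h2
    omega

end Dim

/-- Telescoping: if all inequalities add up to an equality, each of them is an equality. -/
lemma telescope (F g : ℕ → ℕ) (N : ℕ) (h : ∀ i, F i ≤ F (i + 1) + g i) (hN : F N = 0) :
    F 0 ≤ ∑ i ∈ range N, g i ∧
    (∑ i ∈ range N, g i ≤ F 0 → ∀ i < N, F i = F (i + 1) + g i) := by
  have h1 : ∀ m, F 0 ≤ ∑ i ∈ range m, g i + F m := by
    intro m
    induction m with
    | zero => simp
    | succ m ih =>
      rw [Finset.sum_range_succ]
      have := h m
      omega
  have h2 : ∀ d m, m + d = N → F m ≤ ∑ i ∈ Ico m N, g i := by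
    intro d
    induction d with
    | zero =>
      intro m hm
      have : m = N := by omega
      subst this
      simp [hN]
    | succ d ih =>
      intro m hm
      have h3 := ih (m + 1) (by omega)
      rw [Finset.sum_eq_sum_Ico_succ_bot (by omega : m < N)]
      have := h m
      omega
  refine ⟨?_, ?_⟩
  · have := h1 N
    omega
  · intro h0 i hi
    have h3 := h1 i
    have h4 := h2 (N - (i + 1)) (i + 1) (by omega)
    have h5 : ∑ j ∈ range N, g j = ∑ j ∈ range i, g j + ∑ j ∈ Ico i N, g j := by
      rw [Finset.range_eq_Ico, Finset.range_eq_Ico]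
      exact (Finset.sum_Ico_consecutive g (Nat.zero_le i) hi.le).symm
    have h6 : ∑ j ∈ Ico i N, g j = g i + ∑ j ∈ Ico (i + 1) N, g j :=
      Finset.sum_eq_sum_Ico_succ_bot hi g
    have := h i
    omega

/-! ### The filtration by the powers of the maximal ideal -/

section Alg

variable {K : Type u} {A : Type v} [Field K] [CommRing A] [Algebra K A] [IsLocalRing A]

lemma powM_anti (i j : ℕ) (h : i ≤ j) : powM K A j ≤ powM K A i := by
  intro x hx
  exact Ideal.pow_le_pow_right h hx

lemma powM_zero : powM K A 0 = ⊤ := by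
  ext x
  simp [powM]

lemma map_mul_le (l : A) (hl : l ∈ IsLocalRing.maximalIdeal A) (i : ℕ) :
    (powM K A i).map (LinearMap.mulLeft K l) ≤ powM K A (i + 1) := by
  rintro _ ⟨x, hx, rfl⟩
  change l * x ∈ (IsLocalRing.maximalIdeal A) ^ (i + 1)
  rw [pow_succ']
  exact Ideal.mul_mem_mul hl hx

variable [FiniteDimensional K A]

lemma finrank_powM (i : ℕ) :
    Module.finrank K (powM K A i) = hilb K A i + Module.finrank K (powM K A (i + 1)) := by
  have h := Submodule.finrank_quotient_add_finrank
    ((powM K A (i + 1)).submoduleOf (powM K A i))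
  have e : Module.finrank K ((powM K A (i + 1)).submoduleOf (powM K A i))
      = Module.finrank K (powM K A (i + 1)) :=
    (Submodule.submoduleOfEquivOfLe (powM_anti i (i + 1) (Nat.le_succ i))).finrank_eq
  rw [e] at h
  exact h.symm

omit [IsLocalRing A] in
include K in
lemma isNoeth : IsNoetherianRing A := IsNoetherianRing.of_finite K A

lemma powM_bot_or (i : ℕ) :
    powM K A i = ⊥ ∨ Module.finrank K (powM K A i) + i ≤ Module.finrank K A := by
  induction i with
  | zero =>
    right
    rw [powM_zero, finrank_top]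
    omega
  | succ i ih =>
    rcases ih with h | h
    · left
      rw [eq_bot_iff, ← h]
      exact powM_anti i (i + 1) (Nat.le_succ i)
    · by_cases hb : powM K A i = ⊥
      · left
        rw [eq_bot_iff, ← hb]
        exact powM_anti i (i + 1) (Nat.le_succ i)
      · right
        have hlt : powM K A (i + 1) < powM K A i := by
          refine lt_of_le_of_ne (powM_anti i (i + 1) (Nat.le_succ i)) ?_
          intro he
          apply hb
          have hI : (IsLocalRing.maximalIdeal A) ^ i
              ≤ (IsLocalRing.maximalIdeal A) • (IsLocalRing.maximalIdeal A) ^ i := by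
            intro x hx
            have : x ∈ powM K A (i + 1) := by
              rw [he]
              exact hx
            have h3 : x ∈ (IsLocalRing.maximalIdeal A) ^ (i + 1) := this
            rwa [pow_succ'] at h3
          have := isNoeth (K := K) (A := A)
          have h0 : (IsLocalRing.maximalIdeal A) ^ i = ⊥ :=
            Submodule.eq_bot_of_le_smul_of_le_jacobson_bot _ _
              (IsNoetherian.noetherian _) hI (IsLocalRing.maximalIdeal_le_jacobson _)
          rw [eq_bot_iff]
          intro x hx
          have hx' : x ∈ (IsLocalRing.maximalIdeal A) ^ i := hx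
          rw [h0] at hx'
          simpa using hx'
        have := Submodule.finrank_lt_finrank_of_lt hlt
        omega

lemma powM_bot : powM K A (Module.finrank K A) = ⊥ := by
  rcases powM_bot_or (K := K) (A := A) (Module.finrank K A) with h | h
  · exact h
  · have h0 : Module.finrank K (powM K A (Module.finrank K A)) = 0 := by omega
    exact Submodule.finrank_eq_zero.mp h0

lemma hilb_eq_zero (i : ℕ) (h : Module.finrank K A ≤ i) : hilb K A i = 0 := by
  have h1 : powM K A i = ⊥ := by
    rw [eq_bot_iff, ← powM_bot]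
    exact powM_anti _ _ h
  have h2 := finrank_powM (K := K) (A := A) i
  rw [h1, finrank_bot] at h2
  omega

lemma hilb_le (i : ℕ) : hilb K A i ≤ Module.finrank K A := by
  have h2 := finrank_powM (K := K) (A := A) i
  have h3 := Submodule.finrank_le (powM K A i)
  omega

/-- The key step: a stable subspace needing at most `k` generators. -/
lemma step (l : A) (hl : l ∈ IsLocalRing.maximalIdeal A) (W : Submodule K A) (k : ℕ)
    (hW : W.map (LinearMap.mulLeft K l) ≤ W)
    (hk : Module.finrank K W ≤ Module.finrank K (W.map (LinearMap.mulLeft K l)) + k) (i : ℕ) :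
    Module.finrank K (W ⊓ powM K A i : Submodule K A)
      ≤ Module.finrank K ((W ⊓ powM K A i).map (LinearMap.mulLeft K l)) + k ∧
    (W ⊓ powM K A i).map (LinearMap.mulLeft K l) ≤ W ⊓ powM K A (i + 1) ∧
    Module.finrank K (W ⊓ powM K A i : Submodule K A)
      ≤ Module.finrank K (W ⊓ powM K A (i + 1) : Submodule K A) + min k (hilb K A i) := by
  set f := LinearMap.mulLeft K l with hf
  have h1 : Module.finrank K (W ⊓ powM K A i : Submodule K A)
      ≤ Module.finrank K ((W ⊓ powM K A i).map f) + k := by
    have e1 := finrank_map_add f W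
    have e2 := finrank_map_add f (W ⊓ powM K A i)
    have e3 : Module.finrank K (LinearMap.ker f ⊓ (W ⊓ powM K A i) : Submodule K A)
        ≤ Module.finrank K (LinearMap.ker f ⊓ W : Submodule K A) :=
      Submodule.finrank_mono (inf_le_inf_left _ inf_le_left)
    omega
  have h2 : (W ⊓ powM K A i).map f ≤ W ⊓ powM K A (i + 1) :=
    le_inf ((Submodule.map_mono inf_le_left).trans hW)
      ((Submodule.map_mono inf_le_right).trans (map_mul_le l hl i))
  refine ⟨h1, h2, ?_⟩
  have h3 := Submodule.finrank_mono h2
  have h4 : Module.finrank K (W ⊓ powM K A i : Submodule K A)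
      ≤ Module.finrank K (W ⊓ powM K A (i + 1) : Submodule K A) + hilb K A i := by
    have e1 := Submodule.finrank_sup_add_finrank_inf_eq (W ⊓ powM K A i) (powM K A (i + 1))
    have e2 : (W ⊓ powM K A i) ⊓ powM K A (i + 1) = W ⊓ powM K A (i + 1) := by
      rw [inf_assoc, inf_eq_right.mpr (powM_anti i (i + 1) (Nat.le_succ i))]
    have e3 : Module.finrank K ((W ⊓ powM K A i) ⊔ powM K A (i + 1) : Submodule K A)
        ≤ Module.finrank K (powM K A i) :=
      Submodule.finrank_mono (sup_le inf_le_right (powM_anti i (i + 1) (Nat.le_succ i)))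
    have e4 := finrank_powM (K := K) (A := A) i
    rw [e2] at e1
    omega
  omega

/-- If `m ^ v` is contained in `l m ^ (v - 1) + m ^ (v + 1)`, the Hilbert function does not
increase after the degree `v`. -/
lemma no_growth (l : A) (hl : l ∈ IsLocalRing.maximalIdeal A) (v : ℕ)
    (h : powM K A (v + 1) ≤ (powM K A v).map (LinearMap.mulLeft K l) ⊔ powM K A (v + 2)) :
    hilb K A (v + 2) ≤ hilb K A (v + 1) := by
  set m := IsLocalRing.maximalIdeal A with hm
  have := isNoeth (K := K) (A := A)
  have h1 : m ^ (v + 1) ≤ Ideal.span {l} * m ^ v ⊔ m • m ^ (v + 1) := by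
    intro x hx
    have hx' : x ∈ powM K A (v + 1) := hx
    obtain ⟨y, hy, z, hz, rfl⟩ := Submodule.mem_sup.mp (h hx')
    apply Submodule.add_mem_sup
    · obtain ⟨w, hw, rfl⟩ := hy
      exact Ideal.mul_mem_mul (Ideal.mem_span_singleton_self l) hw
    · have hz' : z ∈ m ^ (v + 2) := hz
      rw [show v + 2 = (v + 1) + 1 by ring, pow_succ'] at hz'
      exact hz'
  have h2 : m ^ (v + 1) ≤ Ideal.span {l} * m ^ v :=
    Submodule.le_of_le_smul_of_le_jacobson_bot (IsNoetherian.noetherian _)
      (IsLocalRing.maximalIdeal_le_jacobson _) h1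
  have h3 : m ^ (v + 1) = Ideal.span {l} * m ^ v := by
    apply le_antisymm h2
    rw [pow_succ']
    apply Ideal.mul_mono_left
    rw [Ideal.span_singleton_le_iff_mem]
    exact hl
  have h4 : ∀ i, m ^ (v + 1 + i) = Ideal.span {l} * m ^ (v + i) := by
    intro i
    rw [pow_add, h3, mul_assoc, ← pow_add]
  have h5 : ∀ i, powM K A (v + 1 + i) = (powM K A (v + i)).map (LinearMap.mulLeft K l) := by
    intro i
    ext x
    constructor
    · intro hx
      have hx' : x ∈ m ^ (v + 1 + i) := hx
      rw [h4, Ideal.mem_span_singleton_mul] at hx'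
      obtain ⟨z, hz, rfl⟩ := hx'
      exact ⟨z, hz, rfl⟩
    · rintro ⟨z, hz, rfl⟩
      change l * z ∈ m ^ (v + 1 + i)
      rw [h4]
      exact Ideal.mul_mem_mul (Ideal.mem_span_singleton_self l) hz
  set f := LinearMap.mulLeft K l with hf
  have e1 := finrank_map_add f (powM K A (v + 1))
  have e2 := finrank_map_add f (powM K A (v + 2))
  have e3 := h5 1
  have e4 := h5 2
  rw [show v + 1 + 1 = v + 2 by ring] at e3
  rw [show v + 1 + 2 = v + 3 by ring] at e4
  rw [← e3] at e1
  rw [← e4] at e2
  have e5 : Module.finrank K (LinearMap.ker f ⊓ powM K A (v + 2) : Submodule K A)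
      ≤ Module.finrank K (LinearMap.ker f ⊓ powM K A (v + 1) : Submodule K A) :=
    Submodule.finrank_mono (inf_le_inf_left _ (powM_anti _ _ (by omega)))
  have e6 := finrank_powM (K := K) (A := A) (v + 1)
  have e7 := finrank_powM (K := K) (A := A) (v + 2)
  rw [show v + 1 + 1 = v + 2 by ring] at e6
  rw [show v + 2 + 1 = v + 3 by ring] at e7
  omega

end Alg

/-! ### The contiguous partition -/

/-- The row `t` of the bar graph is a single run (or empty). -/
def Good (H : ℕ → ℕ) (t : ℕ) : Prop :=
  ∀ a i b, a ≤ i → i ≤ b → t ≤ H a → t ≤ H b → t ≤ H i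

lemma sum_min_le (H : ℕ → ℕ) (N : ℕ) (h0 : ∀ i, N ≤ i → H i = 0) (h1 : ∀ i, H i ≤ N) (k : ℕ)
    (hg : ∀ t, 1 ≤ t → t ≤ k → Good H t) :
    ∑ i ∈ range N, min k (H i) ≤ topSum k (contiguous H N) := by
  classical
  set lo : ℕ → ℕ := fun t => sInf {i | t ≤ H i} with hlo
  set hi : ℕ → ℕ := fun t => Nat.findGreatest (fun i => t ≤ H i) N with hhi
  set E : Finset ℕ := (Icc 1 k).filter (fun t => ∃ i, t ≤ H i) with hE
  set g : ℕ → ℕ × ℕ × ℕ := fun t => (t, lo t, hi t) with hg'
  have hlt : ∀ t i, 1 ≤ t → t ≤ H i → i < N := by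
    intro t i ht hi
    by_contra hc
    have := h0 i (by omega)
    omega
  have hloP : ∀ t, (∃ i, t ≤ H i) → t ≤ H (lo t) := by
    intro t ht
    exact Nat.sInf_mem (s := {i | t ≤ H i}) ht
  have hloL : ∀ t i, t ≤ H i → lo t ≤ i := by
    intro t i ht
    exact Nat.sInf_le (s := {i | t ≤ H i}) ht
  have hhiP : ∀ t, 1 ≤ t → (∃ i, t ≤ H i) → t ≤ H (hi t) := by
    rintro t ht ⟨i, hi⟩
    exact Nat.findGreatest_spec (P := fun i => t ≤ H i) (hlt t i ht hi).le hi
  have hhiL : ∀ t i, 1 ≤ t → t ≤ H i → i ≤ hi t := by
    intro t i ht hi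
    exact Nat.le_findGreatest (P := fun i => t ≤ H i) (hlt t i ht hi).le hi
  have hsub : E.image g ⊆ runs H N := by
    intro x hx
    obtain ⟨t, ht, rfl⟩ := Finset.mem_image.mp hx
    obtain ⟨ht1, i, hi1⟩ := Finset.mem_filter.mp ht
    rw [Finset.mem_Icc] at ht1
    have hl := hloP t ⟨i, hi1⟩
    have hh := hhiP t ht1.1 ⟨i, hi1⟩
    have a1 := hlt t _ ht1.1 hl
    have a2 := hlt t _ ht1.1 hh
    have a3 := h1 i
    unfold runs
    rw [Finset.mem_filter]
    refine ⟨?_, ht1.1, ?_, ?_, ?_, ?_⟩
    · simp only [hg', Finset.mem_product, Finset.mem_range]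
      omega
    · exact hloL t _ hh
    · intro j hj
      rw [Finset.mem_Icc] at hj
      exact hg t ht1.1 ht1.2 (lo t) j (hi t) hj.1 hj.2 hl hh
    · by_cases hz : lo t = 0
      · exact Or.inl hz
      · right
        by_contra hc
        have := hloL t (lo t - 1) (by simpa using hc)
        omega
    · by_contra hc
      have := hhiL t (hi t + 1) ht1.1 (by simpa using hc)
      omega
  have hinj : Set.InjOn g (E : Set ℕ) := by
    intro a _ b _ hab
    exact (Prod.mk.inj hab).1
  have hle : ((E.image g).val.map (fun x => x.2.2 + 1 - x.2.1)) ≤ contiguous H N :=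
    Multiset.map_le_map (Finset.val_le_iff.mpr hsub)
  have hcard : Multiset.card ((E.image g).val.map (fun x => x.2.2 + 1 - x.2.1)) ≤ k := by
    rw [Multiset.card_map]
    change (E.image g).card ≤ k
    have c1 : (E.image g).card ≤ E.card := Finset.card_image_le
    have c2 : E.card ≤ (Icc 1 k).card := Finset.card_filter_le _ _
    have c3 : (Icc 1 k).card = k := by simp
    omega
  have hfin := sum_le_topSum k _ _ hle hcard
  have hsum : ((E.image g).val.map (fun x => x.2.2 + 1 - x.2.1)).sum
      = ∑ t ∈ E, (hi t + 1 - lo t) := by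
    change ∑ x ∈ E.image g, (x.2.2 + 1 - x.2.1) = _
    rw [Finset.sum_image hinj]
  rw [hsum] at hfin
  refine le_trans ?_ hfin
  have hmin : ∀ i ∈ range N, min k (H i) = ∑ t ∈ Icc 1 k, if t ≤ H i then 1 else 0 := by
    intro i _
    rw [← Finset.card_filter]
    have : (Icc 1 k).filter (fun t => t ≤ H i) = Icc 1 (min k (H i)) := by
      ext t
      simp only [Finset.mem_filter, Finset.mem_Icc]
      omega
    rw [this]
    simp
  rw [Finset.sum_congr rfl hmin, Finset.sum_comm]
  have hsplit : ∑ t ∈ Icc 1 k, ∑ i ∈ range N, (if t ≤ H i then 1 else 0)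
      = ∑ t ∈ E, ∑ i ∈ range N, (if t ≤ H i then 1 else 0) := by
    rw [hE, Finset.sum_filter]
    apply Finset.sum_congr rfl
    intro t _
    split_ifs with h
    · rfl
    · apply Finset.sum_eq_zero
      intro i _
      rw [if_neg]
      exact fun hc => h ⟨i, hc⟩
  rw [hsplit]
  apply Finset.sum_le_sum
  intro t ht
  obtain ⟨ht1, i, hi1⟩ := Finset.mem_filter.mp ht
  rw [Finset.mem_Icc] at ht1
  rw [← Finset.card_filter]
  have : (range N).filter (fun i => t ≤ H i) ⊆ Icc (lo t) (hi t) := by
    intro j hj
    rw [Finset.mem_filter] at hj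
    rw [Finset.mem_Icc]
    exact ⟨hloL t j hj.2, hhiL t j ht1.1 hj.2⟩
  have hc := Finset.card_le_card this
  rw [Nat.card_Icc] at hc
  exact hc

/-! ### The main theorem -/

section Main

variable {K : Type u} {A : Type v} [Field K] [CommRing A] [Algebra K A] [IsLocalRing A]
  [FiniteDimensional K A]

/-- The sum of the `k` largest Jordan blocks is at most `∑ min(k, h_i)`, and in case of equality
all the inequalities of the proof are equalities. -/
lemma topSum_le (l : A) (hl : l ∈ IsLocalRing.maximalIdeal A) (P : Multiset ℕ)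
    (hP : IsJordanType (LinearMap.mulLeft K l) P) (k : ℕ) :
    topSum k P ≤ ∑ i ∈ range (Module.finrank K A), min k (hilb K A i) ∧
    (∑ i ∈ range (Module.finrank K A), min k (hilb K A i) ≤ topSum k P →
      ∀ v, v + 2 < Module.finrank K A → k ≤ hilb K A v → hilb K A (v + 1) = k →
        hilb K A (v + 2) ≤ k) := by
  obtain ⟨W, hW, hWt, hWk⟩ := exists_subspace (LinearMap.mulLeft K l) P hP k
  have hstep := step l hl W k hW hWk
  have hF0 : Module.finrank K (W ⊓ powM K A 0 : Submodule K A) = topSum k P := by
    rw [powM_zero, inf_top_eq, hWt]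
  have hFN : Module.finrank K (W ⊓ powM K A (Module.finrank K A) : Submodule K A) = 0 := by
    rw [powM_bot, inf_bot_eq, finrank_bot]
  have ht := telescope (fun i => Module.finrank K (W ⊓ powM K A i : Submodule K A))
    (fun i => min k (hilb K A i)) (Module.finrank K A) (fun i => (hstep i).2.2) hFN
  beta_reduce at ht
  rw [hF0] at ht
  refine ⟨ht.1, ?_⟩
  intro hge v hv hkv hv1
  have e1 := ht.2 hge v (by omega)
  have e2 := ht.2 hge (v + 1) (by omega)
  obtain ⟨s1, s2, _⟩ := hstep v
  rw [min_eq_left hkv] at e1
  rw [hv1, min_self] at e2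
  have hmapeq : (W ⊓ powM K A v).map (LinearMap.mulLeft K l) = W ⊓ powM K A (v + 1) :=
    Submodule.eq_of_le_of_finrank_le s2 (by omega)
  have hsup : (W ⊓ powM K A (v + 1)) ⊔ powM K A (v + 2) = powM K A (v + 1) := by
    apply Submodule.eq_of_le_of_finrank_le
    · exact sup_le inf_le_right (powM_anti _ _ (by omega))
    · have f1 := Submodule.finrank_sup_add_finrank_inf_eq (W ⊓ powM K A (v + 1))
        (powM K A (v + 2))
      have f2 : (W ⊓ powM K A (v + 1)) ⊓ powM K A (v + 2) = W ⊓ powM K A (v + 2) := by
        rw [inf_assoc, inf_eq_right.mpr (powM_anti (v + 1) (v + 2) (by omega))]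
      have f3 := finrank_powM (K := K) (A := A) (v + 1)
      rw [show v + 1 + 1 = v + 2 by ring] at f3 e2
      rw [f2] at f1
      omega
  have hle : powM K A (v + 1)
      ≤ (powM K A v).map (LinearMap.mulLeft K l) ⊔ powM K A (v + 2) := by
    calc powM K A (v + 1) = (W ⊓ powM K A (v + 1)) ⊔ powM K A (v + 2) := hsup.symm
      _ = (W ⊓ powM K A v).map (LinearMap.mulLeft K l) ⊔ powM K A (v + 2) := by rw [hmapeq]
      _ ≤ _ := sup_le_sup_right (Submodule.map_mono inf_le_right) _
  have := no_growth l hl v hle
  omega

/-- If the Jordan type dominates the contiguous partition, all rows are single runs. -/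
lemma all_good (l : A) (hl : l ∈ IsLocalRing.maximalIdeal A) (P : Multiset ℕ)
    (hP : IsJordanType (LinearMap.mulLeft K l) P)
    (hdom : ∀ k, topSum k (contiguous (hilb K A) (Module.finrank K A)) ≤ topSum k P) :
    ∀ k, ∀ t, 1 ≤ t → t ≤ k → Good (hilb K A) t := by
  intro k
  induction k with
  | zero =>
    intro t h1 h2
    omega
  | succ k ih =>
    intro t ht1 ht2
    rcases Nat.lt_or_ge t (k + 1) with h | h
    · exact ih t ht1 (by omega)
    · have htk : t = k + 1 := by omega
      subst htk
      intro a i b hai hib ha hb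
      by_contra hc
      have hik : hilb K A i ≤ k := by omega
      set v := Nat.findGreatest (fun j => hilb K A j ≤ k) b with hv
      have hvP : hilb K A v ≤ k :=
        Nat.findGreatest_spec (P := fun j => hilb K A j ≤ k) hib hik
      have hiv : i ≤ v := Nat.le_findGreatest hib hik
      have hvb : v ≤ b := Nat.findGreatest_le b
      have hvb' : v ≠ b := by
        intro he
        rw [he] at hvP
        omega
      have hia : i ≠ a := by
        intro he
        rw [he] at hik
        omega
      have hv1 : k + 1 ≤ hilb K A (v + 1) := by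
        by_contra hcc
        have := Nat.le_findGreatest (P := fun j => hilb K A j ≤ k) (n := b)
          (by omega : v + 1 ≤ b) (by omega)
        omega
      have hkge : ∀ j, a ≤ j → j ≤ b → k ≤ hilb K A j := by
        intro j hj1 hj2
        rcases Nat.eq_zero_or_pos k with hk | hk
        · omega
        · exact ih k hk le_rfl a j b hj1 hj2 (by omega) (by omega)
      obtain ⟨w, hw⟩ : ∃ w, v = w + 1 := ⟨v - 1, by omega⟩
      have hvk : hilb K A (w + 1) = k := by
        have := hkge v (by omega) hvb
        rw [← hw]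
        omega
      have hwk : k ≤ hilb K A w := hkge w (by omega) (by omega)
      have hN : w + 2 < Module.finrank K A := by
        by_contra hcc
        have := hilb_eq_zero (K := K) (A := A) (v + 1) (by omega)
        omega
      have hsm := sum_min_le (hilb K A) (Module.finrank K A) (hilb_eq_zero (K := K) (A := A))
        (hilb_le (K := K) (A := A)) k ih
      have := (topSum_le l hl P hP k).2 (hsm.trans (hdom k)) w hN hwk hvk
      rw [hw] at hv1
      rw [show w + 1 + 1 = w + 2 by ring] at hv1
      omega

end Main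

/-- **Main theorem.** Let `A` be a local finite-dimensional commutative algebra over a field `K`
(for instance, any local Artinian Gorenstein quotient of a power series ring over `K`), let `l`
be an element of the maximal ideal of `A` (for instance, the class of a linear form), and let `P`
be the Jordan type of the multiplication by `l` on `A`. Then `P` does not strictly dominate the
contiguous partition of the Hilbert function of `A`. -/
theorem result (K : Type u) [Field K] (A : Type v) [CommRing A] [Algebra K A] [IsLocalRing A]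
    [FiniteDimensional K A] (l : A) (hl : l ∈ IsLocalRing.maximalIdeal A) (P : Multiset ℕ)
    (hP : IsJordanType (LinearMap.mulLeft K l) P) :
    ¬ StrictlyDominates P (contiguous (hilb K A) (Module.finrank K A)) := by
  rintro ⟨hdom, hne⟩
  apply hne
  have hgood := all_good l hl P hP hdom
  apply eq_of_topSum
  · obtain ⟨r, n, b, hpos, hPn, _⟩ := hP
    intro x hx
    rw [hPn] at hx
    obtain ⟨i, _, rfl⟩ := Multiset.mem_map.mp hx
    exact hpos i
  · intro x hx
    obtain ⟨y, hy, rfl⟩ := Multiset.mem_map.mp hx
    have hy' := (Finset.mem_filter.mp (Finset.mem_val.mp hy)).2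
    have := hy'.2.1
    omega
  · intro k
    apply le_antisymm _ (hdom k)
    refine ((topSum_le l hl P hP k).1).trans ?_
    exact sum_min_le (hilb K A) (Module.finrank K A) (hilb_eq_zero (K := K) (A := A))
      (hilb_le (K := K) (A := A)) k (hgood k)

end Pool.Agent.Results.MP_728180_al.NeverAboveContiguous
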